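import Mathlib

namespace Pool.Agent.Results.MP_c2536d_co.OrAndStructure

open Finset

/-! ### Uniform expectation on a finite set -/

/-- uniform average of a real function on a finite type -/
noncomputable def Ex {W : Type*} [Fintype W] (φ : W → ℝ) : ℝ :=
  (∑ x, φ x) / (Fintype.card W : ℝ)

section basic
variable {W : Type*} [Fintype W]

lemma Ex_add (f g : W → ℝ) : Ex (fun x => f x + g x) = Ex f + Ex g := by
  unfold Ex; rw [Finset.sum_add_distrib, add_div]

lemma Ex_sub (f g : W → ℝ) : Ex (fun x => f x - g x) = Ex f - Ex g := by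
  unfold Ex; rw [Finset.sum_sub_distrib, sub_div]

lemma Ex_cmul (c : ℝ) (f : W → ℝ) : Ex (fun x => c * f x) = c * Ex f := by
  unfold Ex; rw [← Finset.mul_sum, mul_div_assoc]

lemma Ex_sum {J : Type*} (s : Finset J) (f : J → W → ℝ) :
    Ex (fun x => ∑ j ∈ s, f j x) = ∑ j ∈ s, Ex (f j) := by
  unfold Ex; rw [Finset.sum_comm, Finset.sum_div]

lemma Ex_mono {f g : W → ℝ} (h : ∀ x, f x ≤ g x) : Ex f ≤ Ex g := by
  unfold Ex
  exact div_le_div_of_nonneg_right (Finset.sum_le_sum fun x _ => h x) (by positivity)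

lemma Ex_nonneg {f : W → ℝ} (h : ∀ x, 0 ≤ f x) : 0 ≤ Ex f := by
  unfold Ex
  exact div_nonneg (Finset.sum_nonneg fun x _ => h x) (by positivity)

lemma Ex_const [Nonempty W] (c : ℝ) : Ex (fun _ : W => c) = c := by
  unfold Ex
  rw [Finset.sum_const, Finset.card_univ, nsmul_eq_mul]
  have : (Fintype.card W : ℝ) ≠ 0 := by exact_mod_cast Fintype.card_ne_zero
  field_simp

lemma Ex_equiv {W' : Type*} [Fintype W'] (e : W ≃ W') (f : W' → ℝ) :
    Ex (fun x => f (e x)) = Ex f := by
  unfold Ex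
  rw [Equiv.sum_comp e f, Fintype.card_congr e]

end basic

/-! ### Product spaces -/

section prod
variable {ι : Type*} [Fintype ι] [DecidableEq ι] {Om : ι → Type*}
  [∀ j, Fintype (Om j)] [∀ j, Nonempty (Om j)]

/-- `φ` depends only on the coordinates in `s` -/
def Dep (s : Finset ι) (φ : (∀ j, Om j) → ℝ) : Prop :=
  ∀ x y, (∀ j ∈ s, x j = y j) → φ x = φ y

omit [Fintype ι] [DecidableEq ι] [∀ j, Fintype (Om j)] [∀ j, Nonempty (Om j)] in
lemma Dep.mono {s t : Finset ι} {φ : (∀ j, Om j) → ℝ} (h : Dep s φ) (hst : s ⊆ t) : Dep t φ :=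
  fun x y hxy => h x y fun j hj => hxy j (hst hj)

omit [Fintype ι] [DecidableEq ι] [∀ j, Fintype (Om j)] [∀ j, Nonempty (Om j)] in
lemma Dep.op {s : Finset ι} {φ ψ : (∀ j, Om j) → ℝ} (h1 : Dep s φ) (h2 : Dep s ψ)
    (g : ℝ → ℝ → ℝ) : Dep s (fun x => g (φ x) (ψ x)) :=
  fun x y hxy => by simp only [h1 x y hxy, h2 x y hxy]

omit [Fintype ι] [DecidableEq ι] [∀ j, Fintype (Om j)] [∀ j, Nonempty (Om j)] in
lemma Dep.op1 {s : Finset ι} {φ : (∀ j, Om j) → ℝ} (h1 : Dep s φ)
    (g : ℝ → ℝ) : Dep s (fun x => g (φ x)) :=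
  fun x y hxy => by simp only [h1 x y hxy]

omit [Fintype ι] [DecidableEq ι] [∀ j, Fintype (Om j)] [∀ j, Nonempty (Om j)] in
lemma Dep.const (s : Finset ι) (c : ℝ) : Dep (Om := Om) s (fun _ => c) :=
  fun _ _ _ => rfl

omit [Fintype ι] [DecidableEq ι] [∀ j, Fintype (Om j)] [∀ j, Nonempty (Om j)] in
lemma Dep.sum {s : Finset ι} {φ : ι → (∀ j, Om j) → ℝ} (h : ∀ j ∈ s, Dep {j} (φ j)) :
    Dep s (fun x => ∑ j ∈ s, φ j x) :=
  fun x y hxy => Finset.sum_congr rfl fun j hj => h j hj x y (by simpa using hxy j hj)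

/-- mixing two points -/
def mix (A : Finset ι) (x y : ∀ j, Om j) : ∀ j, Om j := fun j => if j ∈ A then x j else y j

/-- the swapping involution -/
def swp (A : Finset ι) : ((∀ j, Om j) × (∀ j, Om j)) ≃ ((∀ j, Om j) × (∀ j, Om j)) where
  toFun p := (mix A p.1 p.2, mix A p.2 p.1)
  invFun p := (mix A p.1 p.2, mix A p.2 p.1)
  left_inv p := by
    ext j <;> by_cases h : j ∈ A <;> simp [mix, h]
  right_inv p := by
    ext j <;> by_cases h : j ∈ A <;> simp [mix, h]

omit [∀ j, Nonempty (Om j)] in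
lemma mix_sum (A : Finset ι) (Φ : (∀ j, Om j) → ℝ) :
    ∑ x, ∑ y, Φ (mix A x y) = (Fintype.card (∀ j, Om j) : ℝ) * ∑ x, Φ x := by
  have h1 : ∑ x, ∑ y, Φ (mix A x y) = ∑ p : (∀ j, Om j) × (∀ j, Om j), Φ ((swp A p).1) := by
    rw [Fintype.sum_prod_type]; rfl
  rw [h1, Equiv.sum_comp (swp A) (fun p => Φ p.1), Fintype.sum_prod_type]
  simp only [Finset.sum_const, Finset.card_univ, nsmul_eq_mul, ← Finset.mul_sum]

/-- independence -/
lemma Ex_indep {A B : Finset ι} (hAB : Disjoint A B) {φ ψ : (∀ j, Om j) → ℝ}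
    (hφ : Dep A φ) (hψ : Dep B ψ) : Ex (fun x => φ x * ψ x) = Ex φ * Ex ψ := by
  have h := mix_sum A (fun x => φ x * ψ x)
  have h2 : ∀ x y : (∀ j, Om j), φ (mix A x y) * ψ (mix A x y) = φ x * ψ y := by
    intro x y
    rw [hφ (mix A x y) x (fun j hj => by simp [mix, hj]),
      hψ (mix A x y) y (fun j hj => by
        have : j ∉ A := fun h' => (Finset.disjoint_left.mp hAB h') hj
        simp [mix, this])]
  simp only [h2] at h
  have hc : (Fintype.card (∀ j, Om j) : ℝ) ≠ 0 := by exact_mod_cast Fintype.card_ne_zero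
  have h3 : (∑ x, φ x) * ∑ y, ψ y = (Fintype.card (∀ j, Om j) : ℝ) * ∑ x, φ x * ψ x := by
    rw [← h, Finset.sum_mul]
    exact Finset.sum_congr rfl fun x _ => by rw [Finset.mul_sum]
  unfold Ex
  rw [div_mul_div_comm, h3]
  field_simp

/-- conditional expectation on the coordinates in `A` -/
noncomputable def CE (A : Finset ι) (F : (∀ j, Om j) → ℝ) (x : ∀ j, Om j) : ℝ :=
  Ex (fun y => F (mix A x y))

omit [∀ j, Nonempty (Om j)] in
lemma CE_dep (A : Finset ι) (F : (∀ j, Om j) → ℝ) : Dep A (CE A F) := by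
  intro x y h
  unfold CE
  congr 1
  ext z
  congr 1
  ext j
  by_cases hj : j ∈ A
  · simp [mix, hj, h j hj]
  · simp [mix, hj]

lemma CE_mul {A : Finset ι} (F : (∀ j, Om j) → ℝ) {φ : (∀ j, Om j) → ℝ} (hφ : Dep A φ) :
    Ex (fun x => CE A F x * φ x) = Ex (fun x => F x * φ x) := by
  have h := mix_sum A (fun x => F x * φ x)
  have h2 : ∀ x y : (∀ j, Om j), F (mix A x y) * φ (mix A x y) = F (mix A x y) * φ x := by
    intro x y
    rw [hφ (mix A x y) x (fun j hj => by simp [mix, hj])]
  simp only [h2, ← Finset.sum_mul] at h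
  have hc : (Fintype.card (∀ j, Om j) : ℝ) ≠ 0 := by exact_mod_cast Fintype.card_ne_zero
  unfold CE Ex
  simp only [div_mul_eq_mul_div, ← Finset.sum_div]
  rw [h]
  field_simp

lemma CE_mean (A : Finset ι) (F : (∀ j, Om j) → ℝ) : Ex (CE A F) = Ex F := by
  have := CE_mul (A := A) F (Dep.const A 1)
  simpa using this

lemma CE_bd (A : Finset ι) {F : (∀ j, Om j) → ℝ} {a b : ℝ} (h : ∀ x, a ≤ F x ∧ F x ≤ b)
    (x : ∀ j, Om j) : a ≤ CE A F x ∧ CE A F x ≤ b := by
  unfold CE
  constructor
  · calc a = Ex (fun _ : (∀ j, Om j) => a) := (Ex_const a).symm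
      _ ≤ _ := Ex_mono fun y => (h _).1
  · calc _ ≤ Ex (fun _ : (∀ j, Om j) => b) := Ex_mono fun y => (h _).2
      _ = b := Ex_const b

/-- second moment of a sum of independent centred functions -/
lemma mom1 (X : ι → (∀ j, Om j) → ℝ) (h0 : ∀ j, Ex (X j) = 0) (T : Finset ι) :
    Ex (fun x => ∑ j ∈ T, X j x) = 0 := by
  rw [Ex_sum]; exact Finset.sum_eq_zero fun j _ => h0 j

lemma mom2 (X : ι → (∀ j, Om j) → ℝ) (hX : ∀ j, Dep {j} (X j)) (h0 : ∀ j, Ex (X j) = 0)
    (T : Finset ι) :
    Ex (fun x => (∑ j ∈ T, X j x) ^ 2) = ∑ j ∈ T, Ex (fun x => X j x ^ 2) := by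
  induction T using Finset.induction_on with
  | empty => simp [Ex]
  | @insert k T hk ih =>
    have hT : Dep T (fun x => ∑ j ∈ T, X j x) := Dep.sum fun j _ => hX j
    have hd : Disjoint ({k} : Finset ι) T := by simpa using hk
    have hi := Ex_indep hd (hX k) hT
    rw [Finset.sum_insert hk]
    have : (fun x => (∑ j ∈ insert k T, X j x) ^ 2)
        = fun x => (X k x ^ 2 + 2 * (X k x * ∑ j ∈ T, X j x)) + (∑ j ∈ T, X j x) ^ 2 := by
      funext x; rw [Finset.sum_insert hk]; ring
    rw [this, Ex_add, Ex_add, Ex_cmul, hi, h0 k, ih]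
    ring

/-- fourth moment bound -/
lemma mom4 (X : ι → (∀ j, Om j) → ℝ) (hX : ∀ j, Dep {j} (X j)) (h0 : ∀ j, Ex (X j) = 0)
    (T : Finset ι) :
    Ex (fun x => (∑ j ∈ T, X j x) ^ 4) ≤
      ∑ j ∈ T, Ex (fun x => X j x ^ 4) + 3 * (∑ j ∈ T, Ex (fun x => X j x ^ 2)) ^ 2 := by
  induction T using Finset.induction_on with
  | empty => simp [Ex]
  | @insert k T hk ih =>
    have hT : Dep T (fun x => ∑ j ∈ T, X j x) := Dep.sum fun j _ => hX j
    have hd : Disjoint ({k} : Finset ι) T := by simpa using hk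
    have h1 := Ex_indep hd (hX k) (hT.op1 (fun t => t ^ 3))
    have h2 := Ex_indep hd ((hX k).op1 (fun t => t ^ 2)) (hT.op1 (fun t => t ^ 2))
    have h3 := Ex_indep hd ((hX k).op1 (fun t => t ^ 3)) hT
    have hm1 := mom1 X h0 T
    have hm2 := mom2 X hX h0 T
    rw [Finset.sum_insert hk, Finset.sum_insert hk]
    have : (fun x => (∑ j ∈ insert k T, X j x) ^ 4)
        = fun x => (((X k x ^ 4 + 4 * (X k x * (∑ j ∈ T, X j x) ^ 3))
          + 6 * (X k x ^ 2 * (∑ j ∈ T, X j x) ^ 2)) + 4 * (X k x ^ 3 * ∑ j ∈ T, X j x))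
          + (∑ j ∈ T, X j x) ^ 4 := by
      funext x; rw [Finset.sum_insert hk]; ring
    rw [this, Ex_add, Ex_add, Ex_add, Ex_add, Ex_cmul, Ex_cmul, Ex_cmul, h1, h2, h3, h0 k, hm1,
      hm2]
    have hk0 : 0 ≤ Ex (fun x => X k x ^ 2) := Ex_nonneg fun x => by positivity
    nlinarith [mul_self_nonneg (Ex (fun x => X k x ^ 2))]

end prod

/-! ### The one-coordinate projections and the residual -/

section main
variable {ι : Type*} [Fintype ι] [DecidableEq ι] {Om : ι → Type*}
  [∀ j, Fintype (Om j)] [∀ j, Nonempty (Om j)]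

/-- centred conditional expectation on a set of coordinates -/
noncomputable def cen (F : (∀ j, Om j) → ℝ) (A : Finset ι) (x : ∀ j, Om j) : ℝ :=
  CE A F x - Ex F

omit [∀ j, Nonempty (Om j)] in
lemma cen_dep (F : (∀ j, Om j) → ℝ) (A : Finset ι) : Dep A (cen F A) :=
  (CE_dep A F).op1 (fun t => t - Ex F)

lemma cen_mean (F : (∀ j, Om j) → ℝ) (A : Finset ι) : Ex (cen F A) = 0 := by
  have : cen F A = fun x => CE A F x - (fun _ => Ex F) x := rfl
  rw [this, Ex_sub, CE_mean, Ex_const]; ring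

lemma cen_mul {A : Finset ι} (F : (∀ j, Om j) → ℝ) {φ : (∀ j, Om j) → ℝ} (hφ : Dep A φ) :
    Ex (fun x => cen F A x * φ x) = Ex (fun x => F x * φ x) - Ex F * Ex φ := by
  have : (fun x => cen F A x * φ x) = fun x => CE A F x * φ x - Ex F * φ x := by
    funext x; unfold cen; ring
  rw [this, Ex_sub, Ex_cmul, CE_mul F hφ]

/-- residual after removing the constant and all one-coordinate parts -/
noncomputable def res (F : (∀ j, Om j) → ℝ) (x : ∀ j, Om j) : ℝ :=
  F x - Ex F - ∑ j, cen F {j} x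

lemma res_orth (F : (∀ j, Om j) → ℝ) {j : ι} {φ : (∀ j, Om j) → ℝ} (hφ : Dep {j} φ) :
    Ex (fun x => res F x * φ x) = 0 := by
  have : (fun x => res F x * φ x)
      = fun x => (F x * φ x - Ex F * φ x) - ∑ i, cen F {i} x * φ x := by
    funext x; unfold res; rw [← Finset.sum_mul]; ring
  rw [this, Ex_sub, Ex_sub, Ex_cmul, Ex_sum, Finset.sum_eq_single j, cen_mul F hφ]
  · ring
  · intro i _ hij
    rw [Ex_indep (A := {i}) (B := {j}) (by simpa using hij) (cen_dep F {i}) hφ, cen_mean, zero_mul]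
  · intro h; exact absurd (Finset.mem_univ j) h

lemma res_mean (F : (∀ j, Om j) → ℝ) : Ex (res F) = 0 := by
  have : res F = fun x => (F x - (fun _ => Ex F) x) - ∑ i, cen F {i} x := by
    funext x; unfold res; rfl
  rw [this, Ex_sub, Ex_sub, Ex_const, mom1 _ (fun j => cen_mean F {j})]
  ring

lemma res_orth_sum (F : (∀ j, Om j) → ℝ) (X : ι → (∀ j, Om j) → ℝ) (hX : ∀ j, Dep {j} (X j))
    (T : Finset ι) :
    Ex (fun x => res F x * ∑ j ∈ T, X j x) = 0 := by
  have : (fun x => res F x * ∑ j ∈ T, X j x) = fun x => ∑ j ∈ T, res F x * X j x := by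
    funext x; rw [Finset.mul_sum]
  rw [this, Ex_sum]
  exact Finset.sum_eq_zero fun j _ => res_orth F (hX j)

/-- best approximation -/
lemma res_best (F q : (∀ j, Om j) → ℝ) (hq : Ex (fun x => res F x * q x) = 0) :
    Ex (fun x => res F x ^ 2) ≤ Ex (fun x => (F x - q x) ^ 2) := by
  have : (fun x => (F x - q x) ^ 2) = fun x => ((res F x ^ 2 + (2 * Ex F) * res F x)
      + 2 * (res F x * ∑ j, cen F {j} x)) - 2 * (res F x * q x)
      + (Ex F + ∑ j, cen F {j} x - q x) ^ 2 := by
    funext x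
    have h : F x = res F x + Ex F + ∑ j, cen F {j} x := by unfold res; ring
    rw [h]; ring
  rw [this, Ex_add, Ex_sub, Ex_add, Ex_add, Ex_cmul, Ex_cmul, Ex_cmul, res_mean, hq,
    res_orth_sum F (fun j => cen F {j}) (fun j => cen_dep F {j})]
  have : 0 ≤ Ex (fun x => (Ex F + ∑ j, cen F {j} x - q x) ^ 2) :=
    Ex_nonneg fun x => by positivity
  linarith

/-- variance of the `j`-th projection -/
noncomputable def vv (F : (∀ j, Om j) → ℝ) (j : ι) : ℝ := Ex (fun x => cen F {j} x ^ 2)

omit [∀ j, Nonempty (Om j)] in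
lemma vv_nonneg (F : (∀ j, Om j) → ℝ) (j : ι) : 0 ≤ vv F j := Ex_nonneg fun x => by positivity

lemma F_cen (F : (∀ j, Om j) → ℝ) (j : ι) : Ex (fun x => F x * cen F {j} x) = vv F j := by
  have h := cen_mul F (cen_dep F {j})
  rw [cen_mean] at h
  unfold vv
  have : (fun x => cen F {j} x ^ 2) = fun x => cen F {j} x * cen F {j} x := by
    funext x; ring
  rw [this, h]; ring

lemma proj_ge (F : (∀ j, Om j) → ℝ) (A : Finset ι) :
    ∑ j ∈ A, vv F j ≤ Ex (fun x => cen F A x ^ 2) := by
  have hU : Dep A (fun x => ∑ j ∈ A, cen F {j} x) := Dep.sum fun j _ => cen_dep F {j}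
  have h1 := cen_mul F hU
  rw [mom1 _ (fun j => cen_mean F {j})] at h1
  have h2 : Ex (fun x => F x * ∑ j ∈ A, cen F {j} x) = ∑ j ∈ A, vv F j := by
    have : (fun x => F x * ∑ j ∈ A, cen F {j} x) = fun x => ∑ j ∈ A, F x * cen F {j} x := by
      funext x; rw [Finset.mul_sum]
    rw [this, Ex_sum]
    exact Finset.sum_congr rfl fun j _ => F_cen F j
  have h3 := mom2 (fun j => cen F {j}) (fun j => cen_dep F {j}) (fun j => cen_mean F {j}) A
  have h4 : 0 ≤ Ex (fun x => (cen F A x - ∑ j ∈ A, cen F {j} x) ^ 2) :=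
    Ex_nonneg fun x => by positivity
  have : (fun x => (cen F A x - ∑ j ∈ A, cen F {j} x) ^ 2)
      = fun x => (cen F A x ^ 2 - 2 * (cen F A x * ∑ j ∈ A, cen F {j} x))
        + (∑ j ∈ A, cen F {j} x) ^ 2 := by
    funext x; ring
  rw [this, Ex_add, Ex_sub, Ex_cmul, h1, h2, h3] at h4
  unfold vv at *
  linarith

omit [Fintype ι] [DecidableEq ι] [∀ j, Fintype (Om j)] [∀ j, Nonempty (Om j)] in
lemma amgm (p q t : ℝ) (h1 : -2 ≤ t) (h2 : t ≤ 2) : -(p * q * t) ≤ p ^ 2 + q ^ 2 := by
  have e1 := mul_nonneg (by linarith : (0:ℝ) ≤ 2 - t) (sq_nonneg (p - q))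
  have e2 := mul_nonneg (by linarith : (0:ℝ) ≤ 2 + t) (sq_nonneg (p + q))
  linarith

lemma two_block (F : (∀ j, Om j) → ℝ) (hF : ∀ x, F x = 0 ∨ F x = 1) (A : Finset ι) :
    (∑ j ∈ A, vv F j) * (∑ j ∈ Aᶜ, vv F j) ≤ Ex (fun x => res F x ^ 2) := by
  set μ := Ex F with hμ
  set a := cen F A with ha
  set b := cen F Aᶜ with hb
  have hda : Dep A a := cen_dep F A
  have hdb : Dep Aᶜ b := cen_dep F Aᶜ
  have hma : Ex a = 0 := cen_mean F A
  have hmb : Ex b = 0 := cen_mean F Aᶜ
  have hdis : Disjoint A Aᶜ := disjoint_compl_right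
  have hF01 : ∀ x, 0 ≤ F x ∧ F x ≤ 1 := fun x => by rcases hF x with h | h <;> rw [h] <;> norm_num
  have hμ01 : 0 ≤ μ ∧ μ ≤ 1 := by
    constructor
    · exact Ex_nonneg fun x => (hF01 x).1
    · calc μ ≤ Ex (fun _ : (∀ j, Om j) => (1 : ℝ)) := Ex_mono fun x => (hF01 x).2
        _ = 1 := Ex_const 1
  -- the two-block residual
  set e : (∀ j, Om j) → ℝ := fun x => F x - μ - a x - b x with he
  have heA : ∀ φ : (∀ j, Om j) → ℝ, Dep A φ → Ex (fun x => e x * φ x) = 0 := by
    intro φ hφ
    have h1 := cen_mul F hφ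
    have h2 := Ex_indep hdis.symm hdb hφ
    have : (fun x => e x * φ x) = fun x => ((F x * φ x - μ * φ x) - cen F A x * φ x)
        - b x * φ x := by
      funext x; simp only [he, ha]; ring
    rw [this, Ex_sub, Ex_sub, Ex_sub, Ex_cmul, h1, h2, hmb]; ring
  have heB : ∀ φ : (∀ j, Om j) → ℝ, Dep Aᶜ φ → Ex (fun x => e x * φ x) = 0 := by
    intro φ hφ
    have h1 := cen_mul F hφ
    have h2 := Ex_indep hdis hda hφ
    have : (fun x => e x * φ x) = fun x => ((F x * φ x - μ * φ x) - cen F Aᶜ x * φ x)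
        - a x * φ x := by
      funext x; simp only [he, hb]; ring
    rw [this, Ex_sub, Ex_sub, Ex_sub, Ex_cmul, h1, h2, hma]; ring
  -- comparison of the residuals
  have hcmp : Ex (fun x => e x ^ 2) ≤ Ex (fun x => res F x ^ 2) := by
    have hU : Dep A (fun x => a x - ∑ j ∈ A, cen F {j} x) :=
      hda.op (Dep.sum fun j _ => cen_dep F {j}) (fun s t => s - t)
    have hW : Dep Aᶜ (fun x => b x - ∑ j ∈ Aᶜ, cen F {j} x) :=
      hdb.op (Dep.sum fun j _ => cen_dep F {j}) (fun s t => s - t)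
    have h1 := heA _ hU
    have h2 := heB _ hW
    have : (fun x => res F x ^ 2) = fun x => ((e x ^ 2
        + 2 * (e x * (a x - ∑ j ∈ A, cen F {j} x)))
        + 2 * (e x * (b x - ∑ j ∈ Aᶜ, cen F {j} x)))
        + ((a x - ∑ j ∈ A, cen F {j} x) + (b x - ∑ j ∈ Aᶜ, cen F {j} x)) ^ 2 := by
      funext x
      have hs : ∑ j, cen F {j} x = ∑ j ∈ A, cen F {j} x + ∑ j ∈ Aᶜ, cen F {j} x :=
        (Finset.sum_add_sum_compl A _).symm
      unfold res
      rw [hs]; simp only [he, hμ]; ring
    rw [this, Ex_add, Ex_add, Ex_add, Ex_cmul, Ex_cmul, h1, h2]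
    have : 0 ≤ Ex (fun x => ((a x - ∑ j ∈ A, cen F {j} x) +
      (b x - ∑ j ∈ Aᶜ, cen F {j} x)) ^ 2) := Ex_nonneg fun x => by positivity
    linarith
  -- the product inequality
  have hprod : Ex (fun x => a x ^ 2) * Ex (fun x => b x ^ 2) ≤ Ex (fun x => e x ^ 2) := by
    have i11 := Ex_indep hdis hda hdb
    have i21 := Ex_indep hdis (hda.op1 (fun t => t ^ 2)) hdb
    have i12 := Ex_indep hdis hda (hdb.op1 (fun t => t ^ 2))
    have i31 := Ex_indep hdis (hda.op1 (fun t => t ^ 3)) hdb
    have i13 := Ex_indep hdis hda (hdb.op1 (fun t => t ^ 3))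
    have i22 := Ex_indep hdis (hda.op1 (fun t => t ^ 2)) (hdb.op1 (fun t => t ^ 2))
    have hpt : ∀ x, 2 * (a x ^ 2 * b x ^ 2) ≤
        (((((a x ^ 2 * b x ^ 2 + e x ^ 2) - (μ ^ 2 - μ) * (a x * b x))
        - (2 * μ - 1) * (a x ^ 2 * b x)) - (2 * μ - 1) * (a x * b x ^ 2))
        - 1 * (a x ^ 3 * b x)) - 1 * (a x * b x ^ 3) := by
      intro x
      have hFx : F x * F x = F x := by rcases hF x with h | h <;> rw [h] <;> norm_num
      have hca := CE_bd A hF01 x
      have hcb := CE_bd Aᶜ hF01 x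
      have hax : CE A F x = a x + μ := by simp only [ha, cen]; ring
      have hbx : CE Aᶜ F x = b x + μ := by simp only [hb, cen]; ring
      rw [hax] at hca
      rw [hbx] at hcb
      set t := a x + b x + μ + F x - 1 with ht
      have ht1 : t ≤ 2 := by have := hF01 x; linarith [hμ01.1, hμ01.2]
      have ht2 : -2 ≤ t := by have := hF01 x; linarith [hμ01.1, hμ01.2]
      have hid : a x * b x * ((μ + a x + b x) ^ 2 - (μ + a x + b x)) + a x * b x * e x * t
          = 0 := by
        have : (μ + a x + b x) ^ 2 - (μ + a x + b x) + e x * t = F x * F x - F x := by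
          simp only [he, ht]; ring
        calc _ = a x * b x * ((μ + a x + b x) ^ 2 - (μ + a x + b x) + e x * t) := by ring
          _ = 0 := by rw [this, hFx]; ring
      have hb1 := amgm (a x * b x) (e x) t ht2 ht1
      linarith
    have hE := Ex_mono hpt
    rw [Ex_sub, Ex_sub, Ex_sub, Ex_sub, Ex_sub, Ex_add, Ex_cmul, Ex_cmul, Ex_cmul, Ex_cmul,
      Ex_cmul, Ex_cmul, i11, i21, i12, i31, i13, i22, hma, hmb] at hE
    linarith
  calc (∑ j ∈ A, vv F j) * (∑ j ∈ Aᶜ, vv F j)
      ≤ Ex (fun x => a x ^ 2) * Ex (fun x => b x ^ 2) :=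
        mul_le_mul (proj_ge F A) (proj_ge F Aᶜ) (Finset.sum_nonneg fun j _ => vv_nonneg F j)
          (Ex_nonneg fun x => by positivity)
    _ ≤ _ := hprod
    _ ≤ _ := hcmp

end main

/-- averaging over all bipartitions -/
lemma avg {ι : Type*} [Fintype ι] [DecidableEq ι] (v : ι → ℝ) (η : ℝ)
    (h : ∀ A : Finset ι, (∑ j ∈ A, v j) * (∑ j ∈ Aᶜ, v j) ≤ η) :
    (∑ j, v j) ^ 2 - ∑ j, v j ^ 2 ≤ 4 * η := by
  set X : ι → (ι → Bool) → ℝ := fun j s => if s j then v j else - v j with hX
  have hdep : ∀ j, Dep (Om := fun _ : ι => Bool) {j} (X j) := by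
    intro j x y hxy
    simp only [hX, hxy j (Finset.mem_singleton_self j)]
  have h0 : ∀ j, Ex (X j) = 0 := by
    intro j
    have hfl := Ex_equiv (W := ι → Bool) (W' := ι → Bool)
      (Equiv.piCongrRight fun _ => Equiv.boolNot) (X j)
    have h2 : (fun x : ι → Bool => X j ((Equiv.piCongrRight fun _ => Equiv.boolNot) x))
        = fun x => (-1) * X j x := by
      funext x
      simp only [hX, Equiv.piCongrRight_apply, Pi.map_apply, Equiv.boolNot_apply]
      cases x j <;> simp
    rw [h2, Ex_cmul] at hfl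
    linarith
  have hm := mom2 (Om := fun _ : ι => Bool) X hdep h0 Finset.univ
  have hsq : ∀ j, Ex (fun x => X j x ^ 2) = v j ^ 2 := by
    intro j
    have : (fun x => X j x ^ 2) = fun _ : (ι → Bool) => v j ^ 2 := by
      funext x; simp only [hX]; cases x j <;> simp
    rw [this, Ex_const]
  simp only [hsq] at hm
  rw [← hm]
  have hpt : ∀ s : ι → Bool, (∑ j, v j) ^ 2 - (∑ j, X j s) ^ 2 ≤ 4 * η := by
    intro s
    set A : Finset ι := Finset.univ.filter (fun j => s j = true) with hA
    have h1 : ∑ j, v j = ∑ j ∈ A, v j + ∑ j ∈ Aᶜ, v j := (Finset.sum_add_sum_compl A _).symm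
    have h2 : ∑ j, X j s = ∑ j ∈ A, v j - ∑ j ∈ Aᶜ, v j := by
      rw [← Finset.sum_add_sum_compl A, sub_eq_add_neg, ← Finset.sum_neg_distrib]
      congr 1
      · exact Finset.sum_congr rfl fun j hj => by
          have : s j = true := by simpa [hA] using hj
          simp [hX, this]
      · exact Finset.sum_congr rfl fun j hj => by
          have : s j = false := by simpa [hA] using hj
          simp [hX, this]
    rw [h1, h2]
    nlinarith [h A]
  have hE : Ex (fun s : ι → Bool => (fun _ => (∑ j, v j) ^ 2) s - (∑ j, X j s) ^ 2) ≤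
      Ex (fun _ : ι → Bool => 4 * η) := Ex_mono hpt
  rw [Ex_sub, Ex_const, Ex_const] at hE
  exact hE

section fin
variable {ι : Type*} [Fintype ι] [DecidableEq ι] {Om : ι → Type*}
  [∀ j, Fintype (Om j)] [∀ j, Nonempty (Om j)]

lemma tot_var (F : (∀ j, Om j) → ℝ) (hF : ∀ x, F x = 0 ∨ F x = 1) :
    ∑ j, vv F j = Ex F - Ex F ^ 2 - Ex (fun x => res F x ^ 2) := by
  have hm := mom2 (fun j => cen F {j}) (fun j => cen_dep F {j}) (fun j => cen_mean F {j})
    Finset.univ
  have hm1 := mom1 (fun j => cen F {j}) (fun j => cen_mean F {j}) Finset.univ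
  have ho := res_orth_sum F (fun j => cen F {j}) (fun j => cen_dep F {j}) Finset.univ
  have h1 : F = fun x => ((((fun _ => Ex F ^ 2) x + (∑ j, cen F {j} x) ^ 2) + res F x ^ 2)
      + (2 * Ex F) * (∑ j, cen F {j} x)) + (2 * Ex F) * res F x
      + 2 * (res F x * ∑ j, cen F {j} x) := by
    funext x
    have hFx : F x = F x * F x := by rcases hF x with h | h <;> rw [h] <;> norm_num
    have h : F x = res F x + Ex F + ∑ j, cen F {j} x := by unfold res; ring
    rw [hFx]
    conv_lhs => rw [h]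
    simp only []
    ring
  have h2 : Ex F = Ex F ^ 2 + ∑ j, vv F j + Ex (fun x => res F x ^ 2) := by
    conv_lhs => rw [h1]
    rw [Ex_add, Ex_add, Ex_add, Ex_add, Ex_add, Ex_cmul, Ex_cmul, Ex_cmul, res_mean, ho, hm, hm1,
      Ex_const]
    unfold vv
    ring
  linarith

/-- indicator of `∃ j, h j (x j)` -/
noncomputable def orv (h : ∀ j, Om j → Bool) (x : ∀ j, Om j) : ℝ :=
  if ∃ j, h j (x j) = true then 1 else 0

omit [Fintype ι] [∀ j, Fintype (Om j)] in
/-- representing one-coordinate functions -/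
lemma exists_fun {j : ι} {φ : (∀ j, Om j) → ℝ} (hφ : Dep {j} φ) (P : ℝ → Prop) :
    ∃ h : Om j → Bool, ∀ x, h (x j) = true ↔ P (φ x) := by
  classical
  let x0 : ∀ j, Om j := fun j => Classical.arbitrary _
  refine ⟨fun t => decide (P (φ (Function.update x0 j t))), fun x => ?_⟩
  have : φ (Function.update x0 j (x j)) = φ x := hφ _ _ (by
    intro i hi
    rw [Finset.mem_singleton] at hi
    subst hi
    simp)
  simp [this]

lemma big_case (F : (∀ j, Om j) → ℝ) (hF : ∀ x, F x = 0 ∨ F x = 1)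
    (hlo : 1 / 6400 ≤ Ex F) (hhi : Ex F ≤ 1 / 2) :
    ∃ h : ∀ j, Om j → Bool, Ex (fun x => (F x - orv h x) ^ 2) ≤
      500000 * Ex (fun x => res F x ^ 2) := by
  classical
  set η := Ex (fun x => res F x ^ 2) with hη
  have hη0 : 0 ≤ η := Ex_nonneg fun x => by positivity
  by_cases hbig : 1 / 51200 ≤ η
  · refine ⟨fun _ _ => false, ?_⟩
    calc Ex (fun x => (F x - orv (fun _ _ => false) x) ^ 2)
        ≤ Ex (fun _ : (∀ j, Om j) => (1 : ℝ)) := Ex_mono fun x => by
          rcases hF x with h | h <;> simp [orv, h]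
      _ = 1 := Ex_const 1
      _ ≤ _ := by linarith
  · push Not at hbig
    have htot := tot_var F hF
    set V := ∑ j, vv F j with hV
    have hVlo : 1 / 25600 ≤ V := by nlinarith
    have hav := avg (vv F) η (fun A => two_block F hF A)
    rw [← hV] at hav
    have hne : (Finset.univ : Finset ι).Nonempty := by
      by_contra hcon
      rw [Finset.not_nonempty_iff_eq_empty] at hcon
      have : V = 0 := by rw [hV, hcon, Finset.sum_empty]
      linarith
    obtain ⟨k, _, hk⟩ := Finset.exists_max_image Finset.univ (vv F) hne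
    have hsq : ∑ j, vv F j ^ 2 ≤ vv F k * V := by
      rw [hV, Finset.mul_sum]
      exact Finset.sum_le_sum fun j hj => by
        rw [pow_two]
        exact mul_le_mul_of_nonneg_right (hk j hj) (vv_nonneg F j)
    have hrest : V - vv F k ≤ 102400 * η := by
      have h1 : V * (V - vv F k) ≤ 4 * η := by nlinarith
      have h2 : vv F k ≤ V := Finset.single_le_sum (fun j _ => vv_nonneg F j) (Finset.mem_univ k)
      nlinarith
    obtain ⟨hk1, hk2⟩ := exists_fun (cen_dep F {k}) (fun t => 1 / 2 ≤ t + Ex F)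
    let h : ∀ j, Om j → Bool := fun j => if e : j = k then e ▸ hk1 else fun _ => false
    refine ⟨h, ?_⟩
    have hor : ∀ x, orv h x = if 1 / 2 ≤ cen F {k} x + Ex F then 1 else 0 := by
      intro x
      unfold orv
      congr 1
      rw [eq_iff_iff, ← hk2 x]
      constructor
      · rintro ⟨j, hj⟩
        by_cases e : j = k
        · subst e
          simpa [h] using hj
        · simp [h, e] at hj
      · intro hh
        exact ⟨k, by simpa [h] using hh⟩
    have hpt : ∀ x, (F x - orv h x) ^ 2 ≤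
        4 * ((res F x ^ 2 + 2 * (res F x * ∑ j ∈ Finset.univ.erase k, cen F {j} x))
          + (∑ j ∈ Finset.univ.erase k, cen F {j} x) ^ 2) := by
      intro x
      have e1 : ((res F x ^ 2 + 2 * (res F x * ∑ j ∈ Finset.univ.erase k, cen F {j} x))
          + (∑ j ∈ Finset.univ.erase k, cen F {j} x) ^ 2) = (F x - (cen F {k} x + Ex F)) ^ 2 := by
        have : ∑ j, cen F {j} x = cen F {k} x + ∑ j ∈ Finset.univ.erase k, cen F {j} x :=
          (Finset.add_sum_erase _ _ (Finset.mem_univ k)).symm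
        unfold res
        rw [this]; ring
      rw [e1, hor x]
      split_ifs with hc
      · rcases hF x with h0 | h0 <;> rw [h0] <;> nlinarith
      · push Not at hc
        rcases hF x with h0 | h0 <;> rw [h0] <;> nlinarith
    have hE := Ex_mono hpt
    rw [Ex_cmul, Ex_add, Ex_add, Ex_cmul,
      res_orth_sum F (fun j => cen F {j}) (fun j => cen_dep F {j}),
      mom2 (fun j => cen F {j}) (fun j => cen_dep F {j}) (fun j => cen_mean F {j})] at hE
    have hlast : ∑ j ∈ Finset.univ.erase k, Ex (fun x => cen F {j} x ^ 2) = V - vv F k := by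
      have := Finset.add_sum_erase Finset.univ (vv F) (Finset.mem_univ k)
      unfold vv at this ⊢
      rw [hV]; unfold vv
      linarith
    rw [hlast] at hE
    linarith

set_option maxHeartbeats 4000000 in
lemma small_case (F : (∀ j, Om j) → ℝ) (hF : ∀ x, F x = 0 ∨ F x = 1)
    (hlo : Ex F ≤ 1 / 6400) :
    ∃ h : ∀ j, Om j → Bool, Ex (fun x => (F x - orv h x) ^ 2) ≤
      500000 * Ex (fun x => res F x ^ 2) := by
  classical
  set η := Ex (fun x => res F x ^ 2) with hη
  set μ := Ex F with hμ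
  have hη0 : 0 ≤ η := Ex_nonneg fun x => by positivity
  have hF01 : ∀ x, 0 ≤ F x ∧ F x ≤ 1 := fun x => by rcases hF x with h | h <;> rw [h] <;> norm_num
  have hμ0 : 0 ≤ μ := Ex_nonneg fun x => (hF01 x).1
  have htot := tot_var F hF
  set V := ∑ j, vv F j with hV
  have hVμ : V ≤ μ := by nlinarith [sq_nonneg μ]
  have hG : ∀ j x, -μ ≤ cen F {j} x ∧ cen F {j} x ≤ 1 - μ := by
    intro j x
    have := CE_bd {j} hF01 x
    unfold cen
    constructor <;> linarith [this.1, this.2]
  -- indicators of the large values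
  let b : ι → (∀ j, Om j) → ℝ := fun j x => if 1 / 8 < cen F {j} x + μ then 1 else 0
  have hb01 : ∀ j x, b j x = 0 ∨ b j x = 1 := by
    intro j x; simp only [b]; split_ifs <;> simp
  have hbdep : ∀ j, Dep {j} (b j) := fun j =>
    (cen_dep F {j}).op1 (fun t => if 1 / 8 < t + μ then 1 else 0)
  set p : ι → ℝ := fun j => Ex (b j) with hp
  have hp0 : ∀ j, 0 ≤ p j := fun j => Ex_nonneg fun x => by
    rcases hb01 j x with h | h <;> rw [h] <;> norm_num
  have hpv : ∀ j, p j ≤ 100 * vv F j := by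
    intro j
    unfold vv
    rw [← Ex_cmul]
    refine Ex_mono fun x => ?_
    simp only [b]
    split_ifs with hc
    · have : 1 / 10 ≤ cen F {j} x := by linarith
      nlinarith
    · positivity
  set P := ∑ j, p j with hP
  have hP0 : 0 ≤ P := Finset.sum_nonneg fun j _ => hp0 j
  have hPV : P ≤ 100 * V := by
    rw [hP, hV, Finset.mul_sum]; exact Finset.sum_le_sum fun j _ => hpv j
  have hP64 : P ≤ 1 / 64 := by linarith
  have hpj : ∀ j, p j ≤ 1 / 64 := fun j =>
    le_trans (Finset.single_le_sum (fun j _ => hp0 j) (Finset.mem_univ j)) hP64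
  -- first moment off the large values
  set r : ι → ℝ := fun j => Ex (fun x => cen F {j} x * (1 - b j x)) with hr
  have hr_eq : ∀ j, r j = - Ex (fun x => cen F {j} x * b j x) := by
    intro j
    have : (fun x => cen F {j} x * (1 - b j x))
        = fun x => cen F {j} x - cen F {j} x * b j x := by funext x; ring
    simp only [hr]
    rw [this, Ex_sub, cen_mean]; ring
  have hr1 : ∀ j, - p j ≤ r j ∧ r j ≤ 0 := by
    intro j
    rw [hr_eq j]
    have h1 : Ex (fun x => cen F {j} x * b j x) ≤ p j := Ex_mono fun x => by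
      have := hG j x
      simp only [b]
      split_ifs with hc <;> nlinarith
    have h2 : 0 ≤ Ex (fun x => cen F {j} x * b j x) := Ex_nonneg fun x => by
      have := hG j x
      simp only [b]
      split_ifs with hc
      · rw [mul_one]; linarith
      · simp
    constructor <;> linarith
  set m : ι → ℝ := fun j => r j / (1 - p j) with hm
  have hmp : ∀ j, m j * (1 - p j) = r j := by
    intro j
    have : (1 - p j) ≠ 0 := by have := hpj j; linarith
    simp only [hm]; field_simp
  have hm1 : ∀ j, -(2 * p j) ≤ m j ∧ m j ≤ 0 := by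
    intro j
    have h1 := hpj j
    have h2 := hp0 j
    have h3 := hmp j
    have h4 := hr1 j
    constructor
    · by_contra hcon
      push Not at hcon
      nlinarith
    · by_contra hcon
      push Not at hcon
      nlinarith
  -- the truncated centred parts
  let Z : ι → (∀ j, Om j) → ℝ := fun j x => (cen F {j} x - m j) * (1 - b j x)
  have hZdep : ∀ j, Dep {j} (Z j) := fun j =>
    ((cen_dep F {j}).op1 (fun t => t - m j)).op ((hbdep j).op1 (fun t => 1 - t))
      (fun s t => s * t)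
  have hEb : ∀ j, Ex (fun x => 1 - b j x) = 1 - p j := by
    intro j
    have : (fun x => 1 - b j x) = fun x => (fun _ => (1:ℝ)) x - b j x := rfl
    rw [this, Ex_sub, Ex_const]
  have hZ0 : ∀ j, Ex (Z j) = 0 := by
    intro j
    have : Z j = fun x => cen F {j} x * (1 - b j x) - m j * (1 - b j x) := by
      funext x; simp only [Z]; ring
    rw [this, Ex_sub, Ex_cmul, hEb, hmp]
    simp only [hr]; ring
  have hZb : ∀ j x, b j x * Z j x = 0 := by
    intro j x
    simp only [Z]
    rcases hb01 j x with h | h <;> rw [h] <;> ring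
  have hZbd : ∀ j x, Z j x ^ 2 ≤ 25 / 1024 := by
    intro j x
    have h1 := hG j x
    have h2 := hm1 j
    have h3 := hpj j
    simp only [Z]
    by_cases hc : 1 / 8 < cen F {j} x + μ
    · have : b j x = 1 := by simp only [b, if_pos hc]
      rw [this]; norm_num
    · have : b j x = 0 := by simp only [b, if_neg hc]
      rw [this]
      push Not at hc
      have h4 : cen F {j} x - m j ≤ 5 / 32 := by linarith
      have h5 : -(5 / 32) ≤ cen F {j} x - m j := by linarith
      nlinarith
  set z : ι → ℝ := fun j => Ex (fun x => Z j x ^ 2) with hz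
  have hz0 : ∀ j, 0 ≤ z j := fun j => Ex_nonneg fun x => by positivity
  have hzv : ∀ j, z j ≤ vv F j := by
    intro j
    have h1 : (fun x => Z j x ^ 2) = fun x => (cen F {j} x ^ 2 * (1 - b j x)
        - (2 * m j) * (cen F {j} x * (1 - b j x))) + m j ^ 2 * (1 - b j x) := by
      funext x
      simp only [Z]
      rcases hb01 j x with h | h <;> rw [h] <;> ring
    have h2 : Ex (fun x => cen F {j} x ^ 2 * (1 - b j x)) ≤ vv F j := Ex_mono fun x => by
      have : 0 ≤ cen F {j} x ^ 2 := by positivity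
      rcases hb01 j x with h | h <;> rw [h] <;> linarith
    have h3 : z j = Ex (fun x => cen F {j} x ^ 2 * (1 - b j x)) - m j ^ 2 * (1 - p j) := by
      simp only [hz]
      rw [h1, Ex_add, Ex_sub, Ex_cmul, Ex_cmul, hEb]
      have : Ex (fun x => cen F {j} x * (1 - b j x)) = m j * (1 - p j) := (hmp j).symm
      rw [this]; ring
    have h4 : 0 ≤ m j ^ 2 * (1 - p j) := mul_nonneg (sq_nonneg _) (by linarith [hpj j])
    linarith
  set ζ := ∑ j, z j with hζ
  have hζ0 : 0 ≤ ζ := Finset.sum_nonneg fun j _ => hz0 j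
  have hζV : ζ ≤ V := Finset.sum_le_sum fun j _ => hzv j
  have hT2 := mom2 Z hZdep hZ0 Finset.univ
  have hT1 := mom1 Z hZ0 Finset.univ
  have hT4 := mom4 Z hZdep hZ0 Finset.univ
  have hT4' : Ex (fun x => (∑ j, Z j x) ^ 4) ≤ 25 / 1024 * ζ + 3 * ζ ^ 2 := by
    refine le_trans hT4 ?_
    have : ∑ j, Ex (fun x => Z j x ^ 4) ≤ 25 / 1024 * ζ := by
      rw [hζ, Finset.mul_sum]
      refine Finset.sum_le_sum fun j _ => ?_
      simp only [hz]
      rw [← Ex_cmul]
      refine Ex_mono fun x => ?_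
      have := hZbd j x
      nlinarith [sq_nonneg (Z j x)]
    linarith
  -- the constant
  set c := μ + ∑ j, m j with hc
  have hsm : -(2 * P) ≤ ∑ j, m j ∧ ∑ j, m j ≤ 0 := by
    constructor
    · rw [hP, Finset.mul_sum, ← Finset.sum_neg_distrib]
      exact Finset.sum_le_sum fun j _ => (hm1 j).1
    · exact Finset.sum_nonpos fun j _ => (hm1 j).2
  have hcu : c ≤ 1 / 16 := by linarith [hsm.2]
  have hcl : -(1 / 16) ≤ c := by linarith [hsm.1]
  -- expectation of b_j (c+T)^2
  have hbT : ∀ j, Ex (fun x => b j x * (c + ∑ k, Z k x) ^ 2) ≤ p j * (c ^ 2 + ζ) := by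
    intro j
    have hdis : Disjoint ({j} : Finset ι) (Finset.univ.erase j) := by simp
    have hTd : Dep (Finset.univ.erase j) (fun x => ∑ k ∈ Finset.univ.erase j, Z k x) :=
      Dep.sum fun k _ => hZdep k
    have h1 : (fun x => b j x * (c + ∑ k, Z k x) ^ 2)
        = fun x => b j x * (c + ∑ k ∈ Finset.univ.erase j, Z k x) ^ 2 := by
      funext x
      rw [← Finset.add_sum_erase Finset.univ (fun k => Z k x) (Finset.mem_univ j)]
      rcases hb01 j x with h | h
      · rw [h]; ring
      · have := hZb j x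
        rw [h, one_mul] at this
        rw [h, this]; ring
    rw [h1, Ex_indep hdis (hbdep j) (hTd.op1 (fun t => (c + t) ^ 2))]
    have h2 : Ex (fun x => (c + ∑ k ∈ Finset.univ.erase j, Z k x) ^ 2)
        = c ^ 2 + ∑ k ∈ Finset.univ.erase j, z k := by
      have : (fun x => (c + ∑ k ∈ Finset.univ.erase j, Z k x) ^ 2)
          = fun x => ((fun _ => c ^ 2) x + (2 * c) * ∑ k ∈ Finset.univ.erase j, Z k x)
            + (∑ k ∈ Finset.univ.erase j, Z k x) ^ 2 := by
        funext x; ring
      rw [this, Ex_add, Ex_add, Ex_cmul, Ex_const, mom1 Z hZ0, mom2 Z hZdep hZ0]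
      ring
    rw [h2]
    have h3 : ∑ k ∈ Finset.univ.erase j, z k ≤ ζ :=
      Finset.sum_le_sum_of_subset_of_nonneg (Finset.erase_subset _ _) fun k _ _ => hz0 k
    exact mul_le_mul_of_nonneg_left (by linarith) (hp0 j)
  -- decomposition on the event that no b_j occurs
  have hbsum0 : ∀ x, 0 ≤ ∑ j, b j x := fun x => Finset.sum_nonneg fun j _ => by
    rcases hb01 j x with h | h <;> rw [h] <;> norm_num
  have hdec0 : ∀ x, (∀ j, b j x = 0) → res F x = F x - c - ∑ j, Z j x := by
    intro x hx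
    have : ∑ j, cen F {j} x = ∑ j, m j + ∑ j, Z j x := by
      rw [← Finset.sum_add_distrib]
      refine Finset.sum_congr rfl fun j _ => ?_
      simp only [Z, hx j]; ring
    unfold res
    rw [this, hc]; ring
  have hbge : ∀ x, ¬ (∀ j, b j x = 0) → 1 ≤ ∑ j, b j x := by
    intro x hx
    push Not at hx
    obtain ⟨j, hj⟩ := hx
    have hj1 : b j x = 1 := (hb01 j x).resolve_left hj
    rw [← hj1]
    exact Finset.single_le_sum (f := fun j => b j x) (fun i _ => by
      rcases hb01 i x with h | h <;> simp only [h] <;> norm_num) (Finset.mem_univ j)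
  -- step (i): ζ ≤ 2 η
  have hζη : ζ ≤ 2 * η := by
    have hpt : ∀ x, ((c + ∑ j, Z j x) ^ 2 - 4 * (∑ j, Z j x) ^ 4)
        - ∑ j, b j x * (c + ∑ k, Z k x) ^ 2 ≤ res F x ^ 2 := by
      intro x
      rw [← Finset.sum_mul]
      by_cases hx : ∀ j, b j x = 0
      · rw [hdec0 x hx, Finset.sum_eq_zero (fun j _ => hx j)]
        set T := ∑ j, Z j x with hT
        rcases hF x with h | h
        · rw [h]; nlinarith [sq_nonneg (T ^ 2)]
        · rw [h]
          nlinarith [sq_nonneg (T ^ 2 - 1 / 4), sq_nonneg (T - 1 / 2)]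
      · have h1 := hbge x hx
        have h2 : 0 ≤ (c + ∑ k, Z k x) ^ 2 := by positivity
        have h3 : 0 ≤ (∑ k, Z k x) ^ 4 := by positivity
        have h4 : 0 ≤ res F x ^ 2 := by positivity
        nlinarith
    have hE := Ex_mono hpt
    have hc2 : Ex (fun x => (c + ∑ j, Z j x) ^ 2) = c ^ 2 + ζ := by
      have : (fun x => (c + ∑ j, Z j x) ^ 2)
          = fun x => ((fun _ => c ^ 2) x + (2 * c) * ∑ j, Z j x) + (∑ j, Z j x) ^ 2 := by
        funext x; ring
      rw [this, Ex_add, Ex_add, Ex_cmul, Ex_const, hT1, hT2]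
      ring
    rw [Ex_sub, Ex_sub, Ex_cmul, hc2, Ex_sum] at hE
    have h1 : ∑ j, Ex (fun x => b j x * (c + ∑ k, Z k x) ^ 2) ≤ P * (c ^ 2 + ζ) := by
      rw [hP, Finset.sum_mul]; exact Finset.sum_le_sum fun j _ => hbT j
    have hc0 : 0 ≤ c ^ 2 := sq_nonneg c
    nlinarith
  -- the pair sums
  have hpair : P ^ 2 - ∑ j, p j ^ 2 ≤ 4 * (10000 * η) := by
    refine avg p (10000 * η) fun A => ?_
    have h1 := two_block F hF A
    have h2 : ∀ B : Finset ι, ∑ j ∈ B, p j ≤ 100 * ∑ j ∈ B, vv F j := fun B => by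
      rw [Finset.mul_sum]; exact Finset.sum_le_sum fun j _ => hpv j
    have h3 : ∀ B : Finset ι, 0 ≤ ∑ j ∈ B, p j := fun B => Finset.sum_nonneg fun j _ => hp0 j
    calc (∑ j ∈ A, p j) * (∑ j ∈ Aᶜ, p j)
        ≤ (100 * ∑ j ∈ A, vv F j) * (100 * ∑ j ∈ Aᶜ, vv F j) :=
          mul_le_mul (h2 A) (h2 Aᶜ) (h3 Aᶜ) (le_trans (h3 A) (h2 A))
      _ = 10000 * ((∑ j ∈ A, vv F j) * ∑ j ∈ Aᶜ, vv F j) := by ring
      _ ≤ 10000 * η := by linarith
  have hNN : Ex (fun x => (∑ j, b j x) ^ 2 - ∑ j, b j x) = P ^ 2 - ∑ j, p j ^ 2 := by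
    have hd : ∀ j, Dep {j} (fun x => b j x - p j) := fun j => (hbdep j).op1 (fun t => t - p j)
    have hd0 : ∀ j, Ex (fun x => b j x - p j) = 0 := by
      intro j
      have : (fun x => b j x - p j) = fun x => b j x - (fun _ => p j) x := rfl
      rw [this, Ex_sub, Ex_const]; simp only [hp]; ring
    have h2 := mom2 (fun j x => b j x - p j) hd hd0 Finset.univ
    have h1 := mom1 (fun j x => b j x - p j) hd0 Finset.univ
    have h3 : ∀ j, Ex (fun x => (b j x - p j) ^ 2) = p j - p j ^ 2 := by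
      intro j
      have : (fun x => (b j x - p j) ^ 2) = fun x => (1 - 2 * p j) * b j x
          + (fun _ => p j ^ 2) x := by
        funext x
        rcases hb01 j x with h | h <;> rw [h] <;> ring
      rw [this, Ex_add, Ex_cmul, Ex_const]
      simp only [hp]; ring
    simp only [h3] at h2
    have h4 : (fun x => (∑ j, b j x) ^ 2 - ∑ j, b j x)
        = fun x => ((∑ j, (b j x - p j)) ^ 2 + (2 * P - 1) * ∑ j, (b j x - p j))
          + (fun _ => P ^ 2 - P) x := by
      funext x
      rw [Finset.sum_sub_distrib, ← hP]; ring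
    rw [h4, Ex_add, Ex_add, Ex_cmul, Ex_const, h1, h2, Finset.sum_sub_distrib, ← hP]
    ring
  -- choose the events
  have hch : ∀ j, ∃ h : Om j → Bool, ∀ x, h (x j) = true ↔ 1 / 8 < cen F {j} x + μ := fun j =>
    exists_fun (cen_dep F {j}) (fun t => 1 / 8 < t + μ)
  choose h hh using hch
  refine ⟨h, ?_⟩
  have hor : ∀ x, orv h x = if ∀ j, b j x = 0 then 0 else 1 := by
    intro x
    unfold orv
    by_cases hx : ∀ j, b j x = 0
    · rw [if_pos hx, if_neg]
      rintro ⟨j, hj⟩
      rw [hh j x] at hj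
      have := hx j
      simp only [b, if_pos hj] at this
      norm_num at this
    · rw [if_neg hx, if_pos]
      push Not at hx
      obtain ⟨j, hj⟩ := hx
      refine ⟨j, (hh j x).2 ?_⟩
      by_contra hcon
      exact hj (by simp only [b, if_neg hcon])
  have hfin : ∀ x, (F x - orv h x) ^ 2 ≤ (256 * res F x ^ 2 + 1024 * (∑ j, Z j x) ^ 2)
      + ((∑ j, b j x) ^ 2 - ∑ j, b j x) := by
    intro x
    rw [hor x]
    by_cases hx : ∀ j, b j x = 0
    · rw [if_pos hx]
      have hs0 : ∑ j, b j x = 0 := Finset.sum_eq_zero fun j _ => hx j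
      rw [hs0]
      have hd := hdec0 x hx
      rcases hF x with h0 | h0
      · rw [h0]; nlinarith [sq_nonneg (res F x), sq_nonneg (∑ j, Z j x)]
      · rw [h0] at hd ⊢
        have : 15 / 16 ≤ res F x + ∑ j, Z j x := by rw [hd]; linarith
        nlinarith [sq_nonneg (res F x - ∑ j, Z j x)]
    · rw [if_neg hx]
      have h1 := hbge x hx
      have hNN0 : 0 ≤ (∑ j, b j x) ^ 2 - ∑ j, b j x := by nlinarith
      rcases hF x with h0 | h0
      swap
      · rw [h0]; nlinarith [sq_nonneg (res F x), sq_nonneg (∑ j, Z j x)]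
      · rw [h0]
        by_cases h2 : 2 ≤ ∑ j, b j x
        · nlinarith [sq_nonneg (res F x), sq_nonneg (∑ j, Z j x)]
        · push Not at h2
          push Not at hx
          obtain ⟨k, hk⟩ := hx
          have hk1 : b k x = 1 := (hb01 k x).resolve_left hk
          have hoth : ∀ j ∈ Finset.univ.erase k, b j x = 0 := by
            intro j hj
            by_contra hcon
            have hj1 : b j x = 1 := (hb01 j x).resolve_left hcon
            have h3 : b k x + ∑ j ∈ Finset.univ.erase k, b j x = ∑ j, b j x :=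
              Finset.add_sum_erase Finset.univ (fun j => b j x) (Finset.mem_univ k)
            have h4 : b j x ≤ ∑ j ∈ Finset.univ.erase k, b j x :=
              Finset.single_le_sum (f := fun j => b j x) (fun i _ => by
                rcases hb01 i x with h | h <;> simp only [h] <;> norm_num) hj
            linarith
          have hZk : Z k x = 0 := by
            have := hZb k x
            rwa [hk1, one_mul] at this
          have hsum : ∑ j, cen F {j} x = cen F {k} x + (∑ j, m j - m k) + ∑ j, Z j x := by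
            rw [← Finset.add_sum_erase Finset.univ (fun j => cen F {j} x) (Finset.mem_univ k),
              ← Finset.add_sum_erase Finset.univ m (Finset.mem_univ k),
              ← Finset.add_sum_erase Finset.univ (fun j => Z j x) (Finset.mem_univ k), hZk]
            have : ∑ j ∈ Finset.univ.erase k, cen F {j} x
                = ∑ j ∈ Finset.univ.erase k, m j + ∑ j ∈ Finset.univ.erase k, Z j x := by
              rw [← Finset.sum_add_distrib]
              refine Finset.sum_congr rfl fun j hj => ?_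
              simp only [Z, hoth j hj]; ring
            rw [this]; ring
          have hk8 : 1 / 8 < cen F {k} x + μ := by
            by_contra hcon
            have : b k x = 0 := by simp only [b, if_neg hcon]
            rw [hk1] at this; norm_num at this
          have hres : res F x = - (μ + (cen F {k} x + (∑ j, m j - m k) + ∑ j, Z j x)) := by
            unfold res; rw [hsum, h0]; ring
          have h5 : 3 / 32 ≤ -(res F x) - ∑ j, Z j x := by
            rw [hres]
            have := (hm1 k).2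
            linarith [hsm.1]
          have h6 : (3 / 32) ^ 2 ≤ 2 * (res F x ^ 2 + (∑ j, Z j x) ^ 2) := by
            nlinarith [sq_nonneg (res F x - ∑ j, Z j x)]
          nlinarith [sq_nonneg (∑ j, Z j x)]
  have hE := Ex_mono hfin
  rw [Ex_add, Ex_add, Ex_cmul, Ex_cmul, hT2, hNN] at hE
  have : ∑ j, Ex (fun x => Z j x ^ 2) = ζ := rfl
  rw [this] at hE
  linarith

/-- abstract theorem -/
lemma abstract_main (F : (∀ j, Om j) → ℝ) (hF : ∀ x, F x = 0 ∨ F x = 1)
    (hhi : Ex F ≤ 1 / 2) :
    ∃ h : ∀ j, Om j → Bool, Ex (fun x => (F x - orv h x) ^ 2) ≤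
      500000 * Ex (fun x => res F x ^ 2) := by
  by_cases hc : 1 / 6400 ≤ Ex F
  · exact big_case F hF hc hhi
  · push Not at hc
    exact small_case F hF hc.le

end fin

/-! ### The statement on the discrete cube -/

/-- the real sign of a Boolean: `true` stands for `-1` and `false` for `1` -/
def sg (b : Bool) : ℝ := if b then -1 else 1

/-- the Walsh character `χ_S(x) = ∏_{i ∈ S} x_i` on the cube `{±1}^m` (encoded by `Bool`) -/
def chi {m : ℕ} (S : Finset (Fin m)) (x : Fin m → Bool) : ℝ := ∏ i ∈ S, sg (x i)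

/-- the Fourier-Walsh coefficient `E[f χ_S]` of the Boolean function `f`, as a `±1`-valued map -/
noncomputable def fourier {m : ℕ} (f : (Fin m → Bool) → Bool) (S : Finset (Fin m)) : ℝ :=
  (∑ x, sg (f x) * chi S x) / 2 ^ m

/-- `f` is `ε`-concentrated on the blocks `I_j = b⁻¹(j)`: the Fourier weight on the sets contained
in a single block is at least `1 - ε` -/
def Concentrated {m n : ℕ} (b : Fin m → Fin n) (ε : ℝ) (f : (Fin m → Bool) → Bool) : Prop :=
  1 - ε ≤ ∑ S ∈ (Finset.univ : Finset (Finset (Fin m))).filter (fun S => ∃ j, ∀ i ∈ S, b i = j),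
    fourier f S ^ 2

/-- the squared `L_2` distance `E[(f - g)²]` of two `±1`-valued functions -/
noncomputable def dist2 {m : ℕ} (f g : (Fin m → Bool) → Bool) : ℝ :=
  (∑ x, (sg (f x) - sg (g x)) ^ 2) / 2 ^ m

/-- `OR_j h_j(x_{I_j})` (with `true = -1`) -/
def orComp {m n : ℕ} (b : Fin m → Fin n) (h : (j : Fin n) → ({i // b i = j} → Bool) → Bool)
    (x : Fin m → Bool) : Bool := decide (∃ j, h j (fun i => x i.1) = true)

/-- `AND_j h_j(x_{I_j})` (with `true = -1`) -/
def andComp {m n : ℕ} (b : Fin m → Fin n) (h : (j : Fin n) → ({i // b i = j} → Bool) → Bool)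
    (x : Fin m → Bool) : Bool := decide (∀ j, h j (fun i => x i.1) = true)

lemma dist2_eq {m : ℕ} (f g : (Fin m → Bool) → Bool) :
    dist2 f g = Ex (fun x => (sg (f x) - sg (g x)) ^ 2) := by
  unfold dist2 Ex; simp

lemma fourier_eq {m : ℕ} (f : (Fin m → Bool) → Bool) (S : Finset (Fin m)) :
    fourier f S = Ex (fun x => sg (f x) * chi S x) := by
  unfold fourier Ex; simp

/-- flipping one coordinate -/
def flip {m : ℕ} (i : Fin m) : (Fin m → Bool) ≃ (Fin m → Bool) :=
  Equiv.piCongrRight (fun k => if k = i then Equiv.boolNot else Equiv.refl Bool)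

lemma chi_flip {m : ℕ} (i : Fin m) (S : Finset (Fin m)) (x : Fin m → Bool) :
    chi S (flip i x) = (if i ∈ S then -1 else 1) * chi S x := by
  unfold chi
  have h1 : ∀ k, sg (flip i x k) = (if k = i then -1 else 1) * sg (x k) := by
    intro k
    simp only [flip, Equiv.piCongrRight_apply, Pi.map_apply]
    split_ifs with h
    · cases x k <;> simp [sg]
    · simp
  simp only [h1, Finset.prod_mul_distrib]
  rw [Finset.prod_ite_eq']

lemma chi_orth {m : ℕ} (S T : Finset (Fin m)) :
    Ex (fun x => chi S x * chi T x) = if S = T then 1 else 0 := by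
  split_ifs with h
  · subst h
    have : (fun x : Fin m → Bool => chi S x * chi S x) = fun _ => 1 := by
      funext x
      unfold chi
      rw [← Finset.prod_mul_distrib]
      refine Finset.prod_eq_one fun i _ => ?_
      cases x i <;> simp [sg]
    rw [this, Ex_const]
  · have hi : ∃ i, (if i ∈ S then (-1:ℝ) else 1) * (if i ∈ T then (-1:ℝ) else 1) = -1 := by
      by_contra hcon
      push Not at hcon
      apply h
      ext i
      have := hcon i
      by_cases h1 : i ∈ S <;> by_cases h2 : i ∈ T <;> simp [h1, h2] at this ⊢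
    obtain ⟨i, hi⟩ := hi
    have h1 := Ex_equiv (flip i) (fun x => chi S x * chi T x)
    have h2 : (fun x => chi S (flip i x) * chi T (flip i x))
        = fun x => (-1) * (chi S x * chi T x) := by
      funext x
      rw [chi_flip, chi_flip]
      calc _ = ((if i ∈ S then (-1:ℝ) else 1) * (if i ∈ T then (-1:ℝ) else 1))
            * (chi S x * chi T x) := by ring
        _ = (-1) * (chi S x * chi T x) := by rw [hi]
    rw [h2, Ex_cmul] at h1
    linarith

lemma sg_sq (b : Bool) : sg b ^ 2 = 1 := by cases b <;> simp [sg]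

lemma parseval {m : ℕ} (f : (Fin m → Bool) → Bool) (C : Finset (Finset (Fin m))) :
    Ex (fun x => (sg (f x) - ∑ S ∈ C, fourier f S * chi S x) ^ 2)
      = 1 - ∑ S ∈ C, fourier f S ^ 2 := by
  have h1 : (fun x => (sg (f x) - ∑ S ∈ C, fourier f S * chi S x) ^ 2)
      = fun x => ((fun _ => (1:ℝ)) x - 2 * ∑ S ∈ C, fourier f S * (sg (f x) * chi S x))
        + ∑ S ∈ C, ∑ T ∈ C, (fourier f S * fourier f T) * (chi S x * chi T x) := by
    funext x
    have e1 : ∑ S ∈ C, fourier f S * (sg (f x) * chi S x)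
        = sg (f x) * ∑ S ∈ C, fourier f S * chi S x := by
      rw [Finset.mul_sum]; exact Finset.sum_congr rfl fun S _ => by ring
    have e2 : ∑ S ∈ C, ∑ T ∈ C, (fourier f S * fourier f T) * (chi S x * chi T x)
        = (∑ S ∈ C, fourier f S * chi S x) * ∑ S ∈ C, fourier f S * chi S x := by
      rw [Finset.sum_mul_sum]
      exact Finset.sum_congr rfl fun S _ => Finset.sum_congr rfl fun T _ => by ring
    rw [e1, e2]
    have := sg_sq (f x)
    calc (sg (f x) - ∑ S ∈ C, fourier f S * chi S x) ^ 2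
        = sg (f x) ^ 2 - 2 * (sg (f x) * ∑ S ∈ C, fourier f S * chi S x)
          + (∑ S ∈ C, fourier f S * chi S x) * ∑ S ∈ C, fourier f S * chi S x := by ring
      _ = _ := by rw [this]
  rw [h1, Ex_add, Ex_sub, Ex_const, Ex_cmul, Ex_sum, Ex_sum]
  have h2 : ∀ S, Ex (fun x => fourier f S * (sg (f x) * chi S x)) = fourier f S ^ 2 := by
    intro S
    rw [Ex_cmul, ← fourier_eq]; ring
  have h3 : ∀ S ∈ C, Ex (fun x => ∑ T ∈ C, (fourier f S * fourier f T) * (chi S x * chi T x))
      = fourier f S ^ 2 := by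
    intro S hS
    rw [Ex_sum, Finset.sum_eq_single S]
    · rw [Ex_cmul, chi_orth, if_pos rfl]; ring
    · intro T _ hT
      rw [Ex_cmul, chi_orth, if_neg (Ne.symm hT), mul_zero]
    · intro h; exact absurd hS h
  simp only [h2]
  rw [Finset.sum_congr rfl h3]
  ring

/-- regrouping the coordinates by blocks -/
def regroup {m n : ℕ} (b : Fin m → Fin n) :
    (Fin m → Bool) ≃ ((j : Fin n) → ({i // b i = j} → Bool)) where
  toFun x := fun _ i => x i.1
  invFun y := fun i => y (b i) ⟨i, rfl⟩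
  left_inv x := rfl
  right_inv y := by
    funext j i
    obtain ⟨i, hi⟩ := i
    subst hi
    rfl

/-- transfer of the abstract theorem to the cube -/
lemma transfer {m n : ℕ} (b : Fin m → Fin n) (F : (Fin m → Bool) → ℝ)
    (hF : ∀ x, F x = 0 ∨ F x = 1) (hhi : Ex F ≤ 1 / 2) (c : ℝ)
    (w : Finset (Fin m) → ℝ) :
    ∃ h : (j : Fin n) → ({i // b i = j} → Bool) → Bool,
      Ex (fun x => (F x - if orComp b h x then 1 else 0) ^ 2) ≤ 500000 *
      Ex (fun x => (F x - (c + ∑ S ∈ (Finset.univ : Finset (Finset (Fin m))).filter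
        (fun S => ∃ j, ∀ i ∈ S, b i = j), w S * chi S x)) ^ 2) := by
  classical
  set C := (Finset.univ : Finset (Finset (Fin m))).filter (fun S => ∃ j, ∀ i ∈ S, b i = j)
    with hC
  let F' : ((j : Fin n) → ({i // b i = j} → Bool)) → ℝ := fun y => F ((regroup b).symm y)
  have hF' : ∀ y, F' y = 0 ∨ F' y = 1 := fun y => hF _
  have hmean : Ex F' = Ex F := Ex_equiv (regroup b).symm F
  obtain ⟨h, hh⟩ := abstract_main F' hF' (by rw [hmean]; exact hhi)
  refine ⟨h, ?_⟩
  let q : ((j : Fin n) → ({i // b i = j} → Bool)) → ℝ :=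
    fun y => c + ∑ S ∈ C, w S * chi S ((regroup b).symm y)
  have hq : Ex (fun y => res F' y * q y) = 0 := by
    have : (fun y => res F' y * q y) = fun y => c * res F' y
        + ∑ S ∈ C, w S * (res F' y * chi S ((regroup b).symm y)) := by
      funext y
      simp only [q]
      rw [mul_add, Finset.mul_sum]
      congr 1
      · ring
      · exact Finset.sum_congr rfl fun S _ => by ring
    rw [this, Ex_add, Ex_cmul, res_mean, Ex_sum]
    rw [Finset.sum_eq_zero, mul_zero, add_zero]
    intro S hS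
    rw [Ex_cmul]
    obtain ⟨j, hj⟩ := (Finset.mem_filter.mp hS).2
    have hdep : Dep (Om := fun j : Fin n => ({i // b i = j} → Bool)) {j}
        (fun y => chi S ((regroup b).symm y)) := by
      intro y y' hyy
      have hj' : y j = y' j := hyy j (Finset.mem_singleton_self j)
      unfold chi
      refine Finset.prod_congr rfl fun i hi => ?_
      have hbi := hj i hi
      subst hbi
      show sg (y (b i) ⟨i, rfl⟩) = sg (y' (b i) ⟨i, rfl⟩)
      rw [hj']
    rw [res_orth F' hdep, mul_zero]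
  have hbest := res_best F' q hq
  have e1 : Ex (fun y => (F' y - q y) ^ 2) = Ex (fun x => (F x - (c + ∑ S ∈ C, w S * chi S x)) ^ 2) :=
    Ex_equiv (regroup b).symm (fun x => (F x - (c + ∑ S ∈ C, w S * chi S x)) ^ 2)
  have e2 : Ex (fun y => (F' y - orv h y) ^ 2)
      = Ex (fun x => (F x - if orComp b h x then 1 else 0) ^ 2) := by
    rw [← Ex_equiv (regroup b) (fun y => (F' y - orv h y) ^ 2)]
    congr 1
    funext x
    simp only [F', Equiv.symm_apply_apply]
    congr 2
    unfold orv orComp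
    simp only [decide_eq_true_eq]
    by_cases hx : ∃ j, h j (fun i => x i.1) = true
    · rw [if_pos hx]; exact if_pos hx
    · rw [if_neg hx]; exact if_neg hx
  rw [← e2, ← e1]
  linarith

/-- **Main theorem.** -/
theorem result : ∃ K : ℝ, ∀ (m n : ℕ) (b : Fin m → Fin n) (ε : ℝ) (f : (Fin m → Bool) → Bool),
    0 < m → 0 ≤ ε → Concentrated b ε f →
    ∃ h : (j : Fin n) → ({i // b i = j} → Bool) → Bool,
      dist2 f (orComp b h) ≤ K * ε ∨ dist2 f (andComp b h) ≤ K * ε := by
  refine ⟨500000, fun m n b ε f _ _ hconc => ?_⟩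
  unfold Concentrated at hconc
  set C := (Finset.univ : Finset (Finset (Fin m))).filter (fun S => ∃ j, ∀ i ∈ S, b i = j)
    with hC
  have hpar := parseval f C
  have hE : Ex (fun x => (sg (f x) - ∑ S ∈ C, fourier f S * chi S x) ^ 2) ≤ ε := by
    rw [hpar]; linarith
  set F0 : (Fin m → Bool) → ℝ := fun x => (1 - sg (f x)) / 2 with hF0
  have h01 : ∀ x, F0 x = 0 ∨ F0 x = 1 := by
    intro x; simp only [hF0]; cases f x <;> simp [sg]
  by_cases hcase : Ex F0 ≤ 1 / 2
  · obtain ⟨h, hh⟩ := transfer b F0 h01 hcase (1 / 2) (fun S => -(1 / 2) * fourier f S)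
    refine ⟨h, Or.inl ?_⟩
    rw [dist2_eq]
    have e1 : (fun x => (sg (f x) - sg (orComp b h x)) ^ 2)
        = fun x => 4 * (F0 x - if orComp b h x then 1 else 0) ^ 2 := by
      funext x
      simp only [hF0]
      cases f x <;> cases orComp b h x <;> norm_num [sg]
    have e2 : (fun x => (F0 x - (1 / 2 + ∑ S ∈ C, -(1 / 2) * fourier f S * chi S x)) ^ 2)
        = fun x => (1 / 4) * (sg (f x) - ∑ S ∈ C, fourier f S * chi S x) ^ 2 := by
      funext x
      have : ∑ S ∈ C, -(1 / 2) * fourier f S * chi S x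
          = -(1 / 2) * ∑ S ∈ C, fourier f S * chi S x := by
        rw [Finset.mul_sum]; exact Finset.sum_congr rfl fun S _ => by ring
      rw [this]; simp only [hF0]; ring
    rw [e1, Ex_cmul]
    rw [e2, Ex_cmul] at hh
    linarith
  · push Not at hcase
    set F1 : (Fin m → Bool) → ℝ := fun x => (1 + sg (f x)) / 2 with hF1
    have h11 : ∀ x, F1 x = 0 ∨ F1 x = 1 := by
      intro x; simp only [hF1]; cases f x <;> simp [sg]
    have hmean : Ex F1 ≤ 1 / 2 := by
      have : F1 = fun x => (fun _ => (1:ℝ)) x - F0 x := by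
        funext x; simp only [hF0, hF1]; ring
      rw [this, Ex_sub, Ex_const]; linarith
    obtain ⟨h, hh⟩ := transfer b F1 h11 hmean (1 / 2) (fun S => (1 / 2) * fourier f S)
    refine ⟨fun j t => !(h j t), Or.inr ?_⟩
    rw [dist2_eq]
    have e1 : (fun x => (sg (f x) - sg (andComp b (fun j t => !(h j t)) x)) ^ 2)
        = fun x => 4 * (F1 x - if orComp b h x then 1 else 0) ^ 2 := by
      funext x
      have hneg : andComp b (fun j t => !(h j t)) x = !(orComp b h x) := by
        unfold andComp orComp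
        rw [← decide_not]
        congr 1
        simp
      rw [hneg]
      simp only [hF1]
      cases f x <;> cases orComp b h x <;> norm_num [sg]
    have e2 : (fun x => (F1 x - (1 / 2 + ∑ S ∈ C, (1 / 2) * fourier f S * chi S x)) ^ 2)
        = fun x => (1 / 4) * (sg (f x) - ∑ S ∈ C, fourier f S * chi S x) ^ 2 := by
      funext x
      have : ∑ S ∈ C, (1 / 2) * fourier f S * chi S x
          = (1 / 2) * ∑ S ∈ C, fourier f S * chi S x := by
        rw [Finset.mul_sum]; exact Finset.sum_congr rfl fun S _ => by ring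
      rw [this]; simp only [hF1]; ring
    rw [e1, Ex_cmul]
    rw [e2, Ex_cmul] at hh
    linarith

end Pool.Agent.Results.MP_c2536d_co.OrAndStructure
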